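import Pool.Agent.R942.WB.Final

/-!
# MP_855f4c_ag: the number of wrong Frobenius eigenvalues on the first open graded pieces
-/

set_option autoImplicit false

open Module

universe u v

namespace Pool.Agent.Results.MP_855f4c_ag.DefectBound

open Pool.Agent.Y143 Pool.Agent.R942.WM Pool.Agent.R942.WS Pool.Agent.R942.WB

/-- **A bound for the defect of the weight-monodromy conjecture.** Let `X` be a projective strictly
semistable scheme of relative dimension `n` over a henselian discrete valuation ring with finite
residue field, let `Y^(m)` be the disjoint union of the intersections of `m` different components of
the special fibre, and let `Γ` be a family of commuting operators on the cohomology (the Frobenius,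
its transpose and, for example, automorphisms or Hecke correspondences).

Let `W ≥ 1`, and suppose that the characters of `Γ` in the primitive parts of the `E_1^(i, w)` with
`2 ≤ w ≤ W` are simple (for `W = 1` there is no condition), so that the graded pieces `gr^M_j` of
`H^m` and of `H^(2 n - m)`, `m ≤ n`, have the predicted weights for `|j| ≥ m - W - 1`. On the next
graded pieces, those with `|j| = m - W - 2`, the number of Frobenius eigenvalues (with
multiplicities) which do not have the predicted weight `m + j` (`2 n - m + j`, respectively) is at
most the dimension `b` of the bad part of the primitive part of `E_1^(i, W + 1)`, `i = m - W - 1`,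
and even at most `b - 1` if `b` is odd. This primitive part is a subspace of the sum of the
`H^(W + 1 - 2 t)(Y^(i+1+2t))(-t)`; the bad part is the sum of the generalized eigenspaces for the
characters which violate the following condition at a place `(i', W + 1)` with `1 ≤ i' ≤ i`: the
generalized eigenspace in the primitive part of `E_1^(i', W + 1)` has dimension at most one, or
`W = 1` and the value of the character at the Frobenius is the product of `q` and a root of unity and
the Tate conjecture for divisors (with semisimplicity) holds for `Y^(i')`.

For `n = 3`, `W = 1` the only open graded piece of a threefold is `gr^M_0` of `H^3`: without any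
hypothesis, it has at most `b` wrong eigenvalues, where `b` is the dimension of the part of the
primitive part of `H^2(Y^(2))` (plus `H^0(Y^(4))(-1)`) on which the Frobenius eigenvalues have
multiplicity at least two and are not products of `q` and roots of unity (if the Tate conjecture for
divisors on `Y^(1)` is known). -/
theorem result {Ω : Type u} [Field Ω] [CharZero Ω] [IsAlgClosed Ω] {Γ : Type} {n q : ℕ}
    (X : Degeneration.{u, v} Ω Γ n q) (A : DivisorClasses X.toSpecialFibre) (W : ℕ) (hW1 : 1 ≤ W)
    (hW : GoodUpTo A W) (m : ℕ) (hm : W + 2 ≤ m) (hmn : m ≤ n) (j : ℤ)
    (hj : |j| = (m : ℤ) - W - 2) :
    WrongAtMost X.toSemistableModel m j (2 * (badDim A (m - W - 1) (W + 1) / 2)) ∧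
    WrongAtMost X.toSemistableModel (2 * n - m) j
      (2 * (badDim A (m - W - 1) (W + 1) / 2)) :=
  defect_bound A hW1 hW hm hmn j hj

end Pool.Agent.Results.MP_855f4c_ag.DefectBound
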