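import Pool.Agent.R941.WD.Main

/-!
# The deviation from the weight-monodromy conjecture is a derivation of the cohomology algebra

Let `X` be a connected smooth projective variety of dimension `n` over a finite extension `K` of
`ℚ_p` whose residue field has `q` elements, for instance the generic fibre of a projective
semistable scheme, and `ℓ ≠ p`. We fix an isomorphism of an algebraic closure `Ω` of `ℚ_ℓ` with `ℂ`
and an embedding of `K` in `ℂ`; so `A = H^*(X_{\bar K}, Ω)` is identified with `H^*(X(ℂ), ℂ)`. Let `N`
be the logarithm of the monodromy and `frob` a geometric Frobenius element.

We construct a derivation `c` of degree `0` of the algebra `A` (`c (x y) = c x y + x c y`) such that,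
for every `k`, `H^k` is mw pure of weight `k` IF AND ONLY IF `c = 0` on `H^k`. Moreover

* `c` satisfies the Leibniz rule for all the operations on the cohomology given by the
  algebraic cycles (more generally, by the classes which are both Hodge and Tate classes) on all the
  powers `X ^ (a + 1)` of `X`; in particular it kills the classes of all algebraic cycles on `X` and
  commutes with all algebraic correspondences;
* `c` commutes with `N` and with the semisimple part of Frobenius;
* `c` is diagonalizable with integral eigenvalues.

In other words the deviation from the weight-monodromy conjecture is a cocharacter, equivariant for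
the Weil-Deligne group, of the group of the automorphisms of the cohomology which fix all Hodge-Tate
classes on all powers of `X`. In particular (as `H^k` is known to be mw pure for `k ≤ 2`, the
derivation `c` kills `H^k` for `k ≤ 2`):

* if the algebra `H^*(X(ℂ), ℂ)` has no semisimple derivation `≠ 0` of degree `0` which kills `H^k` for
  `k ≤ 2` and the algebraic classes, then the weight-monodromy conjecture holds for `X` in all degrees
  (a purely topological criterion, which contains no condition on the reduction of `X`);
* if the conjecture holds for `H^i` and `H^j` it holds for the image of `H^i ⊗ H^j` in `H^(i + j)`, and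
  similarly for all algebraic correspondences in several variables;
* `c` commutes with the Lie algebra of Looijenga, Lunts and Verbitsky generated by the
  `sl(2)`-triples of all classes in `H^2`, so it acts on the multiplicity spaces, by elements of an
  orthogonal or symplectic Lie algebra; the conjecture holds for the parts of the cohomology where
  this Lie algebra acts without multiplicities.

Idea of the proof. The weight (of the eigenvalues of Frobenius) minus the degree defines a
derivation `H` of `A`, with `[H, N] = - 2 N`. The Lie algebra `𝔤` of all derivations of degree `0`
which satisfy the Leibniz rule for the Hodge-Tate classes on the powers of `X` contains `H` and `N`.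
By the Hodge-Riemann bilinear relations `𝔤` is stable under the adjunction for a positive definite
hermitian form on the primitive cohomology: the adjoint of `D` is `- C⁻¹ \bar D C`, `C` the Weil
operator. So its trace form is non-degenerate, although `N` and `H`, which come from the `ℓ`-adic
cohomology, have no relation with the real structure. Therefore one can apply the
theorem of Jacobson and Morozov inside of `𝔤`, in a form equivariant for Frobenius: there is an
`sl(2)`-triple `(E, h, N)` in `𝔤` with `[H, h] = 0`, and `c = H - h`. The theory of `sl(2)` shows that
the eigenspaces of `h` split the monodromy filtration, and the claim follows.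
-/

namespace Pool.Agent.Results.MP_855f4c_ag.DeviationDerivation

open Pool.Agent.R941.WD

/-- There is a derivation `c` of the cohomology algebra, compatible with all Hodge-Tate classes on
the powers of `X`, with the monodromy and with Frobenius, such that for all `k` the space `H^k` is
mw pure of weight `k` if and only if `c` vanishes on `H^k`. -/
theorem result {A : Type} [Ring A] [Algebra ℂ A] {n q : ℕ} (hq : 1 < q)
    (X : CohomologyAlgebra A n) (M : Monodromy X q) :
    ∃ c : Module.End ℂ A, IsDerivationOp c ∧ (∀ k, ∀ x ∈ X.gr k, c x ∈ X.gr k) ∧
      (∀ (a : ℕ) (j : ℤ) (Z : MultilinearMap ℂ (fun _ : Fin a => A) A), M.IsHodgeTate j Z →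
        Leibniz c Z) ∧
      (∀ x, c (M.N x) = M.N (c x)) ∧
      (∀ (α : ℂ), ∀ x ∈ M.Phi.maxGenEigenspace α, c x ∈ M.Phi.maxGenEigenspace α) ∧
      (⨆ j : ℤ, c.eigenspace (j : ℂ) = ⊤) ∧
      ∀ k, M.WeightMonodromy k ↔ ∀ x ∈ X.gr k, c x = 0 :=
  main hq M

end Pool.Agent.Results.MP_855f4c_ag.DeviationDerivation
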