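import Pool.Agent.R942.WS.Final

/-!
# MP_855f4c_ag: the weight-monodromy conjecture if the Frobenius characters are simple
-/

set_option autoImplicit false

open Module

universe u v

namespace Pool.Agent.Results.MP_855f4c_ag.SimpleCharacters

open Pool.Agent.Y143 Pool.Agent.R942.WM Pool.Agent.R942.WS

/-- **The weight-monodromy conjecture if the Frobenius characters of weight at least two are
simple.** Let `X` be a projective strictly semistable scheme of relative dimension `n` over a
henselian discrete valuation ring with finite residue field, let `Y^(m)` be the disjoint union of the
intersections of `m` different components of the special fibre, and let `Γ` be a family of commuting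
operators on the cohomology (the Frobenius, its transpose and, for example, automorphisms or Hecke
correspondences).

Let `W ≥ 1`. Suppose that for all `i ≥ 1` and `2 ≤ w ≤ W` with `i + w ≤ n` every character `χ` of
`Γ` is simple in the primitive part of `E_1^(i, w)`, the sum of the `H^(w - 2 t)(Y^(i+1+2t))(-t)`: its
generalized eigenspace `P` in the primitive part has dimension at most one or, more generally, lies
in the image of the differential `E_1^(i - 1, w) → E_1^(i, w)` or meets it in zero only. For
`w = 2` it suffices that this is true if `χ(Frobenius)` is not the product of `q` and a root of unity,
provided that the Tate conjecture for divisors (with semisimplicity) holds for `Y^(i)`.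

Then for all `m ≤ n` the weight-monodromy conjecture holds for the graded pieces `gr^M_j` of `H^m`
and of `H^(2 n - m)` with `|j| ≥ m - W - 1`; in particular, if `W ≥ n - 1`, it holds for all
cohomology groups of `X`.

For `W = 1` there is no condition: the conjecture holds for the graded pieces with `|j| ≥ m - 2`. For
`n = 3` and `W = 2` the only condition concerns `H^2(Y^(2))`: the conjecture holds for `X` if the Tate
conjecture for divisors holds for the components of the special fibre and the Frobenius eigenvalues
on the primitive part of `H^2(Y^(2))` different from the products of `q` and roots of unity are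
simple or do not occur in `H^2(Y^(1))`. -/
theorem result {Ω : Type u} [Field Ω] [CharZero Ω] [IsAlgClosed Ω] {Γ : Type} {n q : ℕ}
    (X : Degeneration.{u, v} Ω Γ n q) (A : DivisorClasses X.toSpecialFibre) (W : ℕ)
    (hW : GoodUpTo A W) :
    (∀ m ≤ n, PureBeyond X.toSemistableModel m (m - W - 1) ∧
      PureBeyond X.toSemistableModel (2 * n - m) (m - W - 1)) ∧
    (n ≤ W + 1 → ∀ m ≤ 2 * n, IsMWPure q m (X.actV m X.frob) (X.N m)) :=
  ⟨fun _ hm => pure_beyond X A hW hm, fun hn m hm => pure_all X A hW hn m hm⟩

end Pool.Agent.Results.MP_855f4c_ag.SimpleCharacters
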