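import Pool.Agent.R942.WR.Main

/-!
# MP_855f4c_ag: the number of wrong Frobenius eigenvalues and the transcendental classes
-/

set_option autoImplicit false

open Module

universe u v

namespace Pool.Agent.Results.MP_855f4c_ag.TranscendentalBound

open Pool.Agent.Y143 Pool.Agent.R942.WB Pool.Agent.R942.WR

/-- **The defect of the weight-monodromy conjecture and the transcendental classes of degree two.**
Let `X` be a projective strictly semistable scheme of relative dimension `n` over a henselian discrete
valuation ring with finite residue field with `q` elements, let `Y^(m)` be the disjoint union of the
intersections of `m` different components of the special fibre, and let `3 ≤ m ≤ n`. Without any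
hypothesis, on the first open graded pieces of the monodromy filtration of `H^m` and of `H^(2 n - m)`,
those with `|j| = m - 3`, the number of Frobenius eigenvalues (with multiplicities) which are not
`q`-Weil numbers of the predicted weight is at most `2 (b_2 - ρ)`, where `b_2` is the second Betti
number of `Y^(m-2)` and `ρ` is the dimension of the subspace of `H^2(Y^(m-2))` spanned by the classes
of divisors.

For `n = m = 3` this is the only open graded piece of a threefold: `gr^M_0 H^3` has at most
`2 (b_2 - ρ)` wrong eigenvalues, where `b_2` and `ρ` are the sums of the second Betti numbers and of
the Picard numbers of the components of the special fibre (over the algebraic closure of the residue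
field); for `b_2 = ρ` this is a theorem of Ito. -/
theorem result {Ω : Type u} [Field Ω] [CharZero Ω] [IsAlgClosed Ω] {Γ : Type} {n q : ℕ}
    (X : Degeneration.{u, v} Ω Γ n q) (A : DivisorClasses X.toSpecialFibre) (m : ℕ) (hm : 3 ≤ m)
    (hmn : m ≤ n) (j : ℤ) (hj : |j| = (m : ℤ) - 3) :
    WrongAtMost X.toSemistableModel m j (2 * transRank A (m - 3)) ∧
    WrongAtMost X.toSemistableModel (2 * n - m) j (2 * transRank A (m - 3)) :=
  bound_all A hm hmn j hj

end Pool.Agent.Results.MP_855f4c_ag.TranscendentalBound
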